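import Pool.Agent.H16.PI.Base

set_option autoImplicit false

namespace Pool.Agent.H18.PI

open Polynomial Pool.Agent Pool.Agent.Helper35 Pool.Agent.H16.PI
open scoped Topology

lemma card_roots_C (S : ℤ[X]) :
    (S.map (Int.castRingHom ℂ)).roots.card = S.natDegree := by
  rw [IsAlgClosed.card_roots_eq_natDegree]
  exact natDegree_map_eq_of_injective (RingHom.injective_int _) S

lemma NR_props (hA : StA) {R S : ℤ[X]} (hR : 1 ≤ R.natDegree) (hS : S ≠ 0) :
    NR R S ≠ 0 ∧ (NR R S).natDegree = S.natDegree ∧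
    ∀ α : ℝ, aeval α S = 0 → aeval (aeval α R) (NR R S) = 0 := by
  have h := hA R S hR hS
  have hlc : ((S.leadingCoeff : ℂ) ^ R.natDegree) ≠ 0 := by
    apply pow_ne_zero
    exact_mod_cast leadingCoeff_ne_zero.mpr hS
  set M := (S.map (Int.castRingHom ℂ)).roots with hM
  have hmon : (M.map (fun a : ℂ => (X : ℂ[X]) - C (aeval a R))).prod.Monic :=
    monic_multiset_prod_of_monic _ _ (fun a _ => monic_X_sub_C _)
  have hdeg : (M.map (fun a : ℂ => (X : ℂ[X]) - C (aeval a R))).prod.natDegree = S.natDegree := by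
    rw [natDegree_multiset_prod_of_monic _ (by
      intro p hp
      obtain ⟨a, -, rfl⟩ := Multiset.mem_map.mp hp
      exact monic_X_sub_C _)]
    rw [Multiset.map_map]
    simp only [Function.comp_apply, natDegree_X_sub_C]
    rw [Multiset.map_const', Multiset.sum_replicate, smul_eq_mul, mul_one]
    exact card_roots_C S
  have h0 : (NR R S).map (Int.castRingHom ℂ) ≠ 0 := by
    rw [h]
    exact mul_ne_zero (C_ne_zero.mpr hlc) hmon.ne_zero
  have hN : NR R S ≠ 0 := by
    intro h1; rw [h1, Polynomial.map_zero] at h0; exact h0 rfl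
  refine ⟨hN, ?_, ?_⟩
  · have h1 : ((NR R S).map (Int.castRingHom ℂ)).natDegree = (NR R S).natDegree :=
      natDegree_map_eq_of_injective (RingHom.injective_int _) _
    rw [← h1, h, natDegree_C_mul hlc, hdeg]
  · intro α hα
    have e1 : ∀ (x : ℝ) (P : ℤ[X]), ((aeval x P : ℝ) : ℂ) = aeval (x : ℂ) P := by
      intro x P
      simp only [aeval_def, eval₂_eq_sum_range]
      push_cast
      simp
    have h2 : aeval ((aeval α R : ℝ) : ℂ) (NR R S) = 0 := by
      have h3 : aeval ((aeval α R : ℝ) : ℂ) (NR R S) =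
          eval ((aeval α R : ℝ) : ℂ) ((NR R S).map (Int.castRingHom ℂ)) := by
        rw [eval_map, aeval_def]; rfl
      rw [h3, h, eval_mul, eval_multiset_prod, Multiset.map_map]
      have hmem : (α : ℂ) ∈ M := by
        rw [hM, mem_roots']
        refine ⟨(Polynomial.map_ne_zero_iff (RingHom.injective_int _)).mpr hS, ?_⟩
        rw [IsRoot.def, eval_map]
        have := e1 α S
        rw [hα, Complex.ofReal_zero] at this
        rw [aeval_def] at this
        exact this.symm
      have hz : (0 : ℂ) ∈ M.map ((fun p : ℂ[X] => eval ((aeval α R : ℝ) : ℂ) p) ∘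
          fun a : ℂ => (X : ℂ[X]) - C (aeval a R)) := by
        rw [Multiset.mem_map]
        refine ⟨(α : ℂ), hmem, ?_⟩
        simp only [Function.comp_apply, eval_sub, eval_X, eval_C]
        rw [e1 α R, sub_self]
      rw [Multiset.prod_eq_zero hz, mul_zero]
    rw [← e1] at h2
    exact_mod_cast h2

theorem stF (hA : StA) (hG : StG) : StF := by
  intro R ξ hR hder n w hw0 hwS w' hw'
  obtain ⟨KG, hKG, hht⟩ := hG R n hR
  set g : ℝ → ℝ := fun x => aeval x R with hg
  have hs : HasStrictDerivAt g (aeval ξ (derivative R)) ξ := R.hasStrictDerivAt_aeval ξ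
  set f : ℝ → ℝ := hs.localInverse g (aeval ξ (derivative R)) ξ hder with hf
  have hfg : ∀ᶠ x in 𝓝 ξ, f (g x) = x := HasStrictFDerivAt.eventually_left_inverse _
  obtain ⟨C, hC⟩ := hs.hasDerivAt.hasFDerivAt.isBigO_sub.bound
  obtain ⟨δ, hδ, hball⟩ := Metric.eventually_nhds_iff.mp (hfg.and hC)
  have hb1 : ∀ y, |ξ - y| < δ → f (g y) = y := fun y hy =>
    (hball (by rw [Real.dist_eq, abs_sub_comm]; exact hy)).1
  have hb2 : ∀ y, |ξ - y| < δ → |g ξ - g y| ≤ C * |ξ - y| := fun y hy => by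
    have := (hball (by rw [Real.dist_eq, abs_sub_comm]; exact hy)).2
    rw [Real.norm_eq_abs, Real.norm_eq_abs, abs_sub_comm, abs_sub_comm y] at this
    exact this
  set d := R.natDegree with hd
  refine W72.transfer ξ (g ξ) n n w hw0 d hR hwS g {y | |ξ - y| < δ} ?_
    (2 ^ n * ((n : ℝ) + 1) * KG) (max C 1) δ ?_
    (lt_of_lt_of_le one_pos (le_max_right _ _)) hδ ?_ ?_ w' hw'
  · intro a ha b hb hab
    rw [← hb1 a ha, ← hb1 b hb, hab]
  · have h1 : (1 : ℝ) ≤ 2 ^ n := one_le_pow₀ (by norm_num)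
    have h2 : (1 : ℝ) ≤ (n : ℝ) + 1 := by
      have : (0 : ℝ) ≤ (n : ℝ) := Nat.cast_nonneg _
      linarith
    calc (1 : ℝ) = 1 * 1 * 1 := by norm_num
      _ ≤ _ := by gcongr
  · intro β _ h
    exact h
  · intro α hα P hP hPd hpos hlt
    have hP0 : P ≠ 0 := hP.1.ne_zero
    obtain ⟨hN0, hNd, hNr⟩ := NR_props hA hR hP0
    refine ⟨?_, ?_, ?_⟩
    · rw [abs_pos]
      intro h0
      have h1 : g ξ = g α := sub_eq_zero.1 h0
      have h2 : ξ = α := by
        have h3 := hb1 ξ (by rw [sub_self, abs_zero]; exact hδ)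
        rw [← h3, h1, hb1 α hα]
      rw [h2, sub_self, abs_zero] at hpos
      exact lt_irrefl _ hpos
    · exact (hb2 α hα).trans (mul_le_mul_of_nonneg_right (le_max_left _ _) (abs_nonneg _))
    · obtain ⟨Q, hQ1, hQ2⟩ := W72.exists_minZ_dvd _ hN0 _ (hNr α hP.2.2.2)
      refine ⟨Q, hQ1, ?_, ?_⟩
      · have := natDegree_le_of_dvd hQ2 hN0
        omega
      · have h1 := W72.ht_dvd hN0 hQ2 (n := n) (by omega)
        refine h1.trans ?_
        rw [mul_assoc (2 ^ n * ((n : ℝ) + 1))]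
        exact mul_le_mul_of_nonneg_left (hht P hP0 hPd) (by positivity)

end Pool.Agent.H18.PI
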