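import Pool.Agent.H16.PI.Base

set_option autoImplicit false

namespace Pool.Agent.H18.PI

open Polynomial Pool.Agent Pool.Agent.Helper35 Pool.Agent.H16.PI
open scoped Topology

theorem stH (hE : StE) : StH := by
  intro R ξ hR hder n w hw0 hwS w' hw'
  obtain ⟨KE, hKE, hht⟩ := hE R n
  set g : ℝ → ℝ := fun x => aeval x R with hg
  have hs : HasStrictDerivAt g (aeval ξ (derivative R)) ξ := R.hasStrictDerivAt_aeval ξ
  set f : ℝ → ℝ := hs.localInverse g (aeval ξ (derivative R)) ξ hder with hf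
  have hfs : HasStrictDerivAt f (aeval ξ (derivative R))⁻¹ (g ξ) := hs.to_localInverse hder
  have hf0 : f (g ξ) = ξ := HasStrictFDerivAt.localInverse_apply_image _
  have hgf : ∀ᶠ y in 𝓝 (g ξ), g (f y) = y := HasStrictFDerivAt.eventually_right_inverse _
  obtain ⟨C, hC⟩ := hfs.hasDerivAt.hasFDerivAt.isBigO_sub.bound
  obtain ⟨δ, hδ, hball⟩ := Metric.eventually_nhds_iff.mp (hgf.and hC)
  have hb1 : ∀ y, |g ξ - y| < δ → g (f y) = y := fun y hy =>
    (hball (by rw [Real.dist_eq, abs_sub_comm]; exact hy)).1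
  have hb2 : ∀ y, |g ξ - y| < δ → |ξ - f y| ≤ C * |g ξ - y| := fun y hy => by
    have := (hball (by rw [Real.dist_eq, abs_sub_comm]; exact hy)).2
    rw [hf0, Real.norm_eq_abs, Real.norm_eq_abs, abs_sub_comm, abs_sub_comm y] at this
    exact this
  set d := R.natDegree with hd
  refine W72.transfer (g ξ) ξ n (d * n) w hw0 1 le_rfl hwS f {y | |g ξ - y| < δ} ?_
    (2 ^ (d * n) * (((d * n : ℕ) : ℝ) + 1) * KE) (max C 1) δ ?_
    (lt_of_lt_of_le one_pos (le_max_right _ _)) hδ ?_ ?_ w' (by push_cast; linarith)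
  · intro a ha b hb hab
    rw [← hb1 a ha, ← hb1 b hb, hab]
  · have h1 : (1 : ℝ) ≤ 2 ^ (d * n) := one_le_pow₀ (by norm_num)
    have h2 : (1 : ℝ) ≤ ((d * n : ℕ) : ℝ) + 1 := by
      have : (0 : ℝ) ≤ ((d * n : ℕ) : ℝ) := Nat.cast_nonneg _
      linarith
    calc (1 : ℝ) = 1 * 1 * 1 := by norm_num
      _ ≤ _ := by gcongr
  · intro β _ h
    exact h
  · intro β hβ P hP hPd hpos hlt
    have hP0 : P ≠ 0 := hP.1.ne_zero
    refine ⟨?_, ?_, ?_⟩
    · rw [abs_pos]
      intro h0
      have h1 : ξ = f β := sub_eq_zero.1 h0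
      have h2 : g ξ = β := by
        conv_lhs => rw [h1]
        exact hb1 β hβ
      rw [h2, sub_self, abs_zero] at hpos
      exact lt_irrefl _ hpos
    · exact (hb2 β hβ).trans (mul_le_mul_of_nonneg_right (le_max_left _ _) (abs_nonneg _))
    · have hc0 : P.comp R ≠ 0 := by
        intro h0
        rcases comp_eq_zero_iff.mp h0 with h | h
        · exact hP0 h
        · have := congrArg natDegree h.2
          rw [natDegree_C] at this
          omega
      have hval : aeval (f β) (P.comp R) = 0 := by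
        rw [aeval_comp]
        have : aeval (f β) R = β := hb1 β hβ
        rw [this, hP.2.2.2]
      obtain ⟨Q, hQ1, hQ2⟩ := W72.exists_minZ_dvd _ hc0 _ hval
      have hdeg : (P.comp R).natDegree ≤ d * n := by
        rw [natDegree_comp, mul_comm]
        exact Nat.mul_le_mul_left _ hPd
      refine ⟨Q, hQ1, (natDegree_le_of_dvd hQ2 hc0).trans hdeg, ?_⟩
      have h1 := W72.ht_dvd hc0 hQ2 hdeg
      rw [pow_one]
      refine h1.trans ?_
      rw [mul_assoc (2 ^ (d * n) * (((d * n : ℕ) : ℝ) + 1))]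
      exact mul_le_mul_of_nonneg_left (hht P hPd) (by positivity)

end Pool.Agent.H18.PI
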