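import Pool.Agent.H16.PI.Base2
import Pool.Agent.H18.PI.F

set_option autoImplicit false

namespace Pool.Agent.H18.PI

open Polynomial Pool.Agent Pool.Agent.Helper35 Pool.Agent.H16.PI
open scoped Topology

lemma aevC (a : ℂ) (P : ℤ[X]) : aeval a (P.map (Int.castRingHom ℚ)) = aeval a P := by
  rw [aeval_def, eval₂_map, aeval_def]
  congr 1

lemma NR_root' (hA : StA) {R P : ℤ[X]} (hR : 1 ≤ R.natDegree) (hP : P ≠ 0) {b : ℂ}
    (hb : aeval b (NR R P) = 0) : ∃ a : ℂ, aeval a P = 0 ∧ aeval a R = b := by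
  have h := hA R P hR hP
  have hlc : ((P.leadingCoeff : ℂ) ^ R.natDegree) ≠ 0 := by
    apply pow_ne_zero
    exact_mod_cast leadingCoeff_ne_zero.mpr hP
  have h3 : aeval b (NR R P) = eval b ((NR R P).map (Int.castRingHom ℂ)) := by
    rw [eval_map, aeval_def]; rfl
  rw [h3, h, eval_mul, eval_multiset_prod, Multiset.map_map, eval_C] at hb
  have h4 := (mul_eq_zero.mp hb).resolve_left hlc
  rw [Multiset.prod_eq_zero_iff, Multiset.mem_map] at h4
  obtain ⟨a, ha, h5⟩ := h4
  simp only [Function.comp_apply, eval_sub, eval_X, eval_C] at h5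
  refine ⟨a, ?_, (sub_eq_zero.mp h5).symm⟩
  rw [mem_roots'] at ha
  have := ha.2
  rw [IsRoot.def, eval_map] at this
  rw [aeval_def]; exact this

lemma NR_lc (hA : StA) {R P : ℤ[X]} (hR : 1 ≤ R.natDegree) (hP : P ≠ 0) :
    (NR R P).leadingCoeff = P.leadingCoeff ^ R.natDegree := by
  have h := congrArg leadingCoeff (hA R P hR hP)
  have hmon : (((P.map (Int.castRingHom ℂ)).roots).map
      (fun a : ℂ => (X : ℂ[X]) - C (aeval a R))).prod.Monic :=
    monic_multiset_prod_of_monic _ _ (fun a _ => monic_X_sub_C _)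
  rw [leadingCoeff_map_of_injective (RingHom.injective_int _), leadingCoeff_mul, leadingCoeff_C,
    hmon.leadingCoeff, mul_one] at h
  simp only [eq_intCast] at h
  exact_mod_cast h

lemma comp_map_aev (R S : ℤ[X]) (a : ℂ) :
    aeval a ((S.comp R).map (Int.castRingHom ℚ)) = aeval (aeval a R) S := by
  rw [aevC, aeval_comp]

theorem stM (hA : StA) : StM := by
  intro R S P hR hS hP hdvd
  have hSd : (S.map (Int.castRingHom ℚ)).degree ≠ 0 := by
    intro h
    have := natDegree_eq_zero_iff_degree_le_zero.2 h.le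
    rw [natDegree_map_eq_of_injective (RingHom.injective_int _)] at this
    have := hS.natDegree_pos
    omega
  obtain ⟨b, hb⟩ := IsAlgClosed.exists_aeval_eq_zero ℂ _ hSd
  rw [aevC] at hb
  have hE : aeval b (NR R P) = 0 := by
    obtain ⟨W, hW⟩ := hdvd
    rw [hW, map_mul, hb, zero_mul]
  obtain ⟨a, ha, hab⟩ := NR_root' hA hR hP.ne_zero hE
  have hint : IsIntegral ℚ a := by
    rw [← isAlgebraic_iff_isIntegral]
    exact ⟨P.map (Int.castRingHom ℚ), Irreducible.ne_zero hP, by rw [aevC]; exact ha⟩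
  have h4 : minpoly ℚ a ∣ P.map (Int.castRingHom ℚ) :=
    minpoly.dvd ℚ _ (by rw [aevC]; exact ha)
  have h5 : minpoly ℚ a ∣ (S.comp R).map (Int.castRingHom ℚ) :=
    minpoly.dvd ℚ _ (by rw [comp_map_aev, hab]; exact hb)
  exact ((minpoly.irreducible hint).associated_of_dvd hP h4).symm.dvd.trans h5

theorem stN (hA : StA) (hB : StB) (hM : StM) : StN := by
  intro R S P₀ p A b hR hS hP₀ hdvd₀ hp hRp hb hlead hSp h0 hAc
  set m := R.natDegree with hm
  -- the primitive part
  set P : ℤ[X] := P₀.primPart with hPdef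
  have hP₀0 : P₀ ≠ 0 := hP₀.ne_zero
  have hc0 : P₀.content ≠ 0 := by rwa [Ne, content_eq_zero_iff]
  have hcP : P₀ = C P₀.content * P := P₀.eq_C_content_mul_primPart
  have hmapP : P₀.map (Int.castRingHom ℚ) =
      C (P₀.content : ℚ) * P.map (Int.castRingHom ℚ) := by
    conv_lhs => rw [hcP]
    rw [Polynomial.map_mul, map_C]; rfl
  have hCu : IsUnit (C (P₀.content : ℚ)) := by
    rw [isUnit_C, isUnit_iff_ne_zero]; exact_mod_cast hc0
  have hP : IrrQ P := by
    have h1 : Irreducible (P₀.map (Int.castRingHom ℚ)) := hP₀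
    rw [hmapP, irreducible_isUnit_mul hCu] at h1
    exact h1
  have hdegP : P₀.natDegree = P.natDegree := (natDegree_primPart P₀).symm
  have hPprim : P.IsPrimitive := P₀.isPrimitive_primPart
  have hP0 : P ≠ 0 := hP.ne_zero
  have hPS : P.map (Int.castRingHom ℚ) ∣ (S.comp R).map (Int.castRingHom ℚ) := by
    have h1 := hM R S P₀ hR hS hP₀ hdvd₀
    rw [hmapP] at h1
    exact (dvd_mul_left _ _).trans h1
  have hS0 := hS.ne_zero
  obtain ⟨hE0, hEdeg, -⟩ := NR_props hA hR hP0
  have hElead := NR_lc hA hR hP0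
  obtain ⟨E, hE⟩ : ∃ E, E = NR R P := ⟨_, rfl⟩
  -- `S(R(X))` is not zero
  have hcomp0 : S.comp R ≠ 0 := by
    intro h1
    rcases comp_eq_zero_iff.mp h1 with h | h
    · exact hS0 h
    · have := congrArg natDegree h.2
      rw [natDegree_C] at this
      omega
  -- `P` divides `S(R(X))` over the integers
  have hPZ : P ∣ S.comp R := by
    apply hPprim.dvd_of_fraction_map_dvd_fraction_map (K := ℚ)
    exact hPS
  -- reduction modulo `p`
  haveI : Fact p.Prime := ⟨hp⟩
  have hSmod : S.map (Int.castRingHom (ZMod p)) = C ((S.coeff 0 : ℤ) : ZMod p) := by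
    ext i
    rw [coeff_map, coeff_C]
    split_ifs with hi
    · rw [hi]; rfl
    · have := hSp i (Nat.one_le_iff_ne_zero.mpr hi)
      rw [eq_intCast, (ZMod.intCast_zmod_eq_zero_iff_dvd _ _)]
      exact this
  have hs0 : ((S.coeff 0 : ℤ) : ZMod p) ≠ 0 := by
    rw [Ne, ZMod.intCast_zmod_eq_zero_iff_dvd]; exact h0
  obtain ⟨W, hW⟩ := hPZ
  have hPu : IsUnit (P.map (Int.castRingHom (ZMod p))) := by
    have h1 : (S.comp R).map (Int.castRingHom (ZMod p)) = C ((S.coeff 0 : ℤ) : ZMod p) := by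
      rw [map_comp, hSmod, C_comp]
    rw [hW, Polynomial.map_mul] at h1
    apply isUnit_of_mul_isUnit_left (y := W.map (Int.castRingHom (ZMod p)))
    rw [h1, isUnit_C, isUnit_iff_ne_zero]
    exact hs0
  obtain ⟨r, hr, hPr⟩ := Polynomial.isUnit_iff.mp hPu
  have hPi : ∀ i, 1 ≤ i → (p : ℤ) ∣ P.coeff i := by
    intro i hi
    have h1 := congrArg (fun Q : (ZMod p)[X] => Q.coeff i) hPr
    simp only [coeff_C, coeff_map, eq_intCast] at h1
    rw [if_neg (by omega)] at h1
    exact (ZMod.intCast_zmod_eq_zero_iff_dvd _ _).mp h1.symm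
  have hPc : ¬ (p : ℤ) ∣ P.coeff 0 := by
    intro h1
    have h2 := congrArg (fun Q : (ZMod p)[X] => Q.coeff 0) hPr
    simp only [coeff_C, coeff_map, eq_intCast, if_true] at h2
    rw [(ZMod.intCast_zmod_eq_zero_iff_dvd _ _).mpr h1] at h2
    rw [h2] at hr
    exact not_isUnit_zero hr
  have hEp : ¬ (p : ℤ) ∣ (NR R P).coeff 0 := hB R P p hp hR hRp hPi hPc
  -- the shape of the norm
  rw [← hE] at hE0 hEdeg hElead hEp
  have hroot : ∀ a : ℂ, aeval a P = 0 → aeval (aeval a R) S = 0 := by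
    intro a ha
    obtain ⟨W', hW'⟩ := hPS
    rw [← comp_map_aev, hW', map_mul, aevC, ha, zero_mul]
  have hEq0 : E.map (Int.castRingHom ℚ) ≠ 0 :=
    (Polynomial.map_ne_zero_iff (RingHom.injective_int _)).mpr hE0
  have hdvdF : ∀ F : ℚ[X], F ∣ E.map (Int.castRingHom ℚ) → F.natDegree ≠ 0 →
      S.map (Int.castRingHom ℚ) ∣ F := by
    intro F hF hFd
    have hFd' : F.degree ≠ 0 := fun h => hFd (natDegree_eq_of_degree_eq_some h)
    obtain ⟨c, hc⟩ := IsAlgClosed.exists_aeval_eq_zero ℂ F hFd'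
    have hEb : aeval c (NR R P) = 0 := by
      obtain ⟨W', hW'⟩ := hF
      rw [← hE, ← aevC, hW', map_mul, hc, zero_mul]
    obtain ⟨a, ha, hac⟩ := NR_root' hA hR hP0 hEb
    have h1 := hroot a ha
    rw [hac] at h1
    have hint : IsIntegral ℚ c := by
      rw [← isAlgebraic_iff_isIntegral]
      refine ⟨F, ?_, hc⟩
      rintro rfl
      simp at hFd
    have h3 : minpoly ℚ c ∣ S.map (Int.castRingHom ℚ) :=
      minpoly.dvd ℚ _ (by rw [aevC]; exact h1)
    have h4 : minpoly ℚ c ∣ F := minpoly.dvd ℚ _ hc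
    exact ((minpoly.irreducible hint).associated_of_dvd hS h3).symm.dvd.trans h4
  have hSnu : ¬ IsUnit (S.map (Int.castRingHom ℚ)) := Irreducible.not_isUnit hS
  obtain ⟨t, F, hF1, hF2⟩ := (FiniteMultiplicity.of_not_isUnit hSnu hEq0).exists_eq_pow_mul_and_not_dvd
    |> fun h => (⟨_, h⟩ : ∃ t : ℕ, ∃ F : ℚ[X], E.map (Int.castRingHom ℚ) =
      (S.map (Int.castRingHom ℚ)) ^ t * F ∧ ¬ (S.map (Int.castRingHom ℚ)) ∣ F)
  have hFd : F.natDegree = 0 := by
    by_contra h
    exact hF2 (hdvdF F (by rw [hF1]; exact dvd_mul_left _ _) h)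
  have hF0 : F ≠ 0 := by
    rintro rfl
    rw [mul_zero] at hF1
    exact hEq0 hF1
  have hdeg : P.natDegree = t * S.natDegree := by
    have h1 := congrArg natDegree hF1
    rw [natDegree_mul (pow_ne_zero _ (Irreducible.ne_zero hS)) hF0, natDegree_pow, hFd, add_zero,
      natDegree_map_eq_of_injective (RingHom.injective_int _),
      natDegree_map_eq_of_injective (RingHom.injective_int _), hEdeg] at h1
    exact h1
  have hPpos := hP.natDegree_pos
  have ht0 : t ≠ 0 := by rintro rfl; omega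
  have hid : E.leadingCoeff * S.coeff 0 ^ t = S.leadingCoeff ^ t * E.coeff 0 := by
    have h1 := congrArg leadingCoeff hF1
    have h2 := congrArg (eval (0 : ℚ)) hF1
    rw [leadingCoeff_mul, leadingCoeff_pow,
      leadingCoeff_map_of_injective (RingHom.injective_int _),
      leadingCoeff_map_of_injective (RingHom.injective_int _)] at h1
    rw [eval_mul, eval_pow, ← coeff_zero_eq_eval_zero, ← coeff_zero_eq_eval_zero,
      ← coeff_zero_eq_eval_zero, coeff_map, coeff_map] at h2
    have h3 : F.leadingCoeff = F.coeff 0 := by rw [leadingCoeff, hFd]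
    rw [h3] at h1
    simp only [eq_intCast] at h1 h2
    have h4 : ((E.leadingCoeff * S.coeff 0 ^ t : ℤ) : ℚ) =
        ((S.leadingCoeff ^ t * E.coeff 0 : ℤ) : ℚ) := by
      push_cast
      rw [h1, h2]; ring
    exact_mod_cast h4
  have hidN : P.leadingCoeff.natAbs ^ m * (S.coeff 0).natAbs ^ t =
      S.leadingCoeff.natAbs ^ t * (E.coeff 0).natAbs := by
    have h1 := congrArg Int.natAbs hid
    rw [Int.natAbs_mul, Int.natAbs_mul, hElead, Int.natAbs_pow, Int.natAbs_pow,
      Int.natAbs_pow] at h1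
    exact h1
  have hb' : ¬ p ∣ b.natAbs := fun hd => hb (Int.natCast_dvd.mpr hd)
  have h0' : ¬ p ∣ (S.coeff 0).natAbs := fun hd => h0 (Int.natCast_dvd.mpr hd)
  have hE' : ¬ p ∣ (E.coeff 0).natAbs := fun hd => hEp (Int.natCast_dvd.mpr hd)
  have hl0 : P.leadingCoeff.natAbs ≠ 0 := by simpa using hP0
  have hs0' : (S.coeff 0).natAbs ≠ 0 := fun h => h0' (by rw [h]; exact dvd_zero _)
  have hSl0 : S.leadingCoeff.natAbs ≠ 0 := by simpa using hS0
  have hc0' : (E.coeff 0).natAbs ≠ 0 := fun h => hE' (by rw [h]; exact dvd_zero _)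
  have hmt : m ∣ t := by
    have h1 := congrArg (fun x => x.factorization p) hidN
    have hSl : S.leadingCoeff.natAbs = p ^ A * b.natAbs := by
      rw [hlead, Int.natAbs_mul, Int.natAbs_pow, Int.natAbs_natCast]
    have hb0 : b.natAbs ≠ 0 := fun h => hb' (by rw [h]; exact dvd_zero _)
    rw [Nat.factorization_mul (pow_ne_zero _ hl0) (pow_ne_zero _ hs0'),
      Nat.factorization_mul (pow_ne_zero _ hSl0) hc0', Nat.factorization_pow,
      Nat.factorization_pow, Nat.factorization_pow, hSl,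
      Nat.factorization_mul (pow_ne_zero _ hp.ne_zero) hb0, Nat.factorization_pow] at h1
    simp only [Finsupp.coe_add, Finsupp.coe_smul, Pi.add_apply, Pi.smul_apply, smul_eq_mul,
      hp.factorization_self, mul_one, Nat.factorization_eq_zero_of_not_dvd hb',
      Nat.factorization_eq_zero_of_not_dvd h0', Nat.factorization_eq_zero_of_not_dvd hE',
      add_zero, mul_zero] at h1
    have h2 : m ∣ t * A := by rw [← h1]; exact dvd_mul_right _ _
    exact hAc.symm.dvd_of_dvd_mul_right h2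
  have hle : P.natDegree ≤ m * S.natDegree := by
    have h1 := natDegree_le_of_dvd ⟨W, hW⟩ hcomp0
    rwa [natDegree_comp, mul_comm] at h1
  have htm : m ≤ t := Nat.le_of_dvd (by omega) hmt
  rw [hdegP]
  apply le_antisymm hle
  rw [hdeg]
  exact Nat.mul_le_mul_right _ htm

end Pool.Agent.H18.PI
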